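import Mathlib

set_option autoImplicit false

namespace Pool.Agent.Results.MP_0e398f_al.ExoticBrachymorphism

/-- A map `f : R → S` between (associative, unital, not necessarily commutative) rings is a
brachymorphism if `f (1 + a) = 1 + f a` and `f (a * b) = f a * f b` for all `a b : R`.
Neither additivity nor linearity is required. -/
def IsBrachymorphism {R S : Type*} [Ring R] [Ring S] (f : R → S) : Prop :=
  (∀ a, f (1 + a) = 1 + f a) ∧ ∀ a b, f (a * b) = f a * f b

section Abstract

variable {k R M : Type*} [Field k] [Ring R] [Algebra k R] [AddCommGroup M] [Module k M]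

/-- The abstract construction: a representation `ρ` of `R` on `M`, a `k`-subspace `L` and a
vector `ε` with the three properties below define a brachymorphism `f` by the rule
`ρ a ε ∈ (f a) ε + (ρ a L + L)`. -/
theorem abstract_construction (ρ : R →ₐ[k] Module.End k M) (L : Submodule k M) (ε : M)
    (H1 : ∀ a : R, ε ∉ L.map (ρ a) ⊔ L)
    (H2 : ∀ a : R, ∃ c : k, ρ a ε - c • ε ∈ L.map (ρ a) ⊔ L)
    (H3 : ∀ a b : R, b ≠ 0 → L.map (ρ a) ≤ L.map (ρ (a * b)) ⊔ L) :
    ∃ f : R → k, IsBrachymorphism f ∧
      ∀ a c, ρ a ε - c • ε ∈ L.map (ρ a) ⊔ L → f a = c := by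
  choose f hf using H2
  have huniq : ∀ a c, ρ a ε - c • ε ∈ L.map (ρ a) ⊔ L → f a = c := by
    intro a c hc
    by_contra hne
    apply H1 a
    have h1 := Submodule.sub_mem _ hc (hf a)
    have h2 : (ρ a ε - c • ε) - (ρ a ε - f a • ε) = (f a - c) • ε := by
      rw [sub_smul]; abel
    rw [h2] at h1
    have h3 : f a - c ≠ 0 := sub_ne_zero.mpr hne
    have h4 := Submodule.smul_mem _ (f a - c)⁻¹ h1
    rwa [smul_smul, inv_mul_cancel₀ h3, one_smul] at h4
  refine ⟨f, ⟨?_, ?_⟩, huniq⟩
  · intro a
    apply huniq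
    have hle : L.map (ρ a) ⊔ L ≤ L.map (ρ (1 + a)) ⊔ L := by
      apply sup_le _ le_sup_right
      rintro _ ⟨l, hl, rfl⟩
      have : ρ a l = ρ (1 + a) l - l := by
        rw [map_add, map_one]; simp
      rw [this]
      exact Submodule.sub_mem _ (Submodule.mem_sup_left ⟨l, hl, rfl⟩)
        (Submodule.mem_sup_right hl)
    have h := hle (hf a)
    have h2 : ρ (1 + a) ε - (1 + f a) • ε = ρ a ε - f a • ε := by
      rw [map_add, map_one, add_smul, one_smul]; simp
    rw [h2]; exact h
  · intro a b
    by_cases hb : b = 0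
    · subst hb
      have h0 : f 0 = 0 := by
        apply huniq
        simp
      rw [mul_zero, h0, mul_zero]
    · apply huniq
      obtain ⟨u, hu, v, hv, huv⟩ := Submodule.mem_sup.mp (hf b)
      obtain ⟨l₁, hl₁, rfl⟩ := hu
      obtain ⟨u', hu', v', hv', huv'⟩ := Submodule.mem_sup.mp (hf a)
      have hb' : ρ b ε = f b • ε + (ρ b l₁ + v) := by
        rw [huv]; abel
      have ha' : ρ a ε = f a • ε + (u' + v') := by
        rw [huv']; abel
      have key : ρ (a * b) ε - (f a * f b) • ε
          = f b • u' + f b • v' + ρ (a * b) l₁ + ρ a v := by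
        rw [map_mul, Module.End.mul_apply, hb', map_add, map_smul, ha', map_add,
          Module.End.mul_apply, smul_add, smul_smul, mul_comm (f b) (f a), smul_add]
        abel
      rw [key]
      have hL : L.map (ρ a) ≤ L.map (ρ (a * b)) ⊔ L := H3 a b hb
      refine Submodule.add_mem _ (Submodule.add_mem _ (Submodule.add_mem _ ?_ ?_) ?_) ?_
      · exact Submodule.smul_mem _ _ (hL hu')
      · exact Submodule.smul_mem _ _ (Submodule.mem_sup_right hv')
      · exact Submodule.mem_sup_left ⟨l₁, hl₁, rfl⟩
      · exact hL ⟨v, hv, rfl⟩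

end Abstract

section Model

variable (k : Type*) [Field k]

/-- The field `k((T^ℚ))` of Hahn series. -/
abbrev K := HahnSeries ℚ k

/-- The substitution `T ↦ T ^ 2` on Hahn series. -/
noncomputable def sigma : K k →+* K k :=
  HahnSeries.embDomainRingHom (AddMonoidHom.mulLeft (2 : ℚ))
    (fun a b h => by simpa using h) (fun a b => by simp)

theorem sigma_coeff (g : K k) (q : ℚ) : (sigma k g).coeff (2 * q) = g.coeff q := by
  have := HahnSeries.embDomain_mk_coeff (Γ := ℚ) (Γ' := ℚ) (f := fun x : ℚ => 2 * x)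
    (fun a b h => by simpa using h) (fun a b => by simp) (x := g) (a := q)
  exact this

theorem sigma_coeff' (g : K k) (q : ℚ) : (sigma k g).coeff q = g.coeff (q / 2) := by
  rw [← sigma_coeff k g (q / 2)]
  congr 1
  ring

theorem half_inj : Function.Injective (fun x : ℚ => x / 2) := fun a b h => by
  simpa using h

theorem half_le (a b : ℚ) : a / 2 ≤ b / 2 ↔ a ≤ b := by
  constructor <;> intro h <;> linarith

theorem sigma_surjective : Function.Surjective (sigma k) := by
  intro g
  refine ⟨HahnSeries.embDomain ⟨⟨fun x : ℚ => x / 2, half_inj⟩,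
    fun {a b} => half_le a b⟩ g, ?_⟩
  ext q
  rw [sigma_coeff']
  exact HahnSeries.embDomain_mk_coeff half_inj half_le

theorem sigma_smul (c : k) (g : K k) : sigma k (c • g) = c • sigma k g := by
  ext q
  simp [sigma_coeff']

theorem sigma_single (q : ℚ) (c : k) :
    sigma k (HahnSeries.single q c) = HahnSeries.single (2 * q) c := by
  ext r
  rw [sigma_coeff']
  by_cases h : r = 2 * q
  · subst h
    rw [HahnSeries.coeff_single_same]
    have : 2 * q / 2 = q := by ring
    rw [this, HahnSeries.coeff_single_same]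
  · rw [HahnSeries.coeff_single_of_ne h, HahnSeries.coeff_single_of_ne]
    intro h'
    apply h
    linarith

/-- The monomial `T ^ q`. -/
noncomputable def mon (q : ℚ) : K k := HahnSeries.single q 1

theorem smul_mon_mul (c : k) (q : ℚ) (g : K k) : c • (mon k q * g) = (c • mon k q) * g := by
  have h : c • mon k q = HahnSeries.single q c := by
    ext r
    by_cases hr : r = q
    · subst hr; simp [mon]
    · simp [mon, HahnSeries.coeff_single_of_ne hr]
  rw [h]
  ext r
  simp [mon, HahnSeries.coeff_single_mul]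

theorem mon_mul (p q : ℚ) : mon k p * mon k q = mon k (p + q) := by
  simp [mon]

/-- The space on which the free algebra acts: formal sums `∑ v n z ^ (-n)` with coefficients in
`k((T^ℚ))`, plus one extra dimension. -/
abbrev M := (ℤ → K k) × k

/-- The action of `x`. -/
noncomputable def X : Module.End k (M k) where
  toFun u := (fun n => sigma k (u.1 (n + 1)) + if n = 0 then HahnSeries.single 0 u.2 else 0,
    (u.1 1).coeff (1 / 2))
  map_add' u v := by
    ext n q
    · by_cases h : n = 0
      · simp [h]; ring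
      · simp [h]
    · simp
  map_smul' c u := by
    ext n q
    · by_cases h : n = 0
      · by_cases hq : q = 0
        · subst hq
          simp [h, sigma_smul]
        · simp [h, sigma_smul, HahnSeries.coeff_single_of_ne hq]
      · simp [h, sigma_smul]
    · simp

/-- The action of `y`. -/
noncomputable def Y : Module.End k (M k) where
  toFun u := (fun n => mon k 1 * sigma k (u.1 (n + 1)), 0)
  map_add' u v := by
    ext n q
    · simp [mul_add]
    · simp
  map_smul' c u := by
    ext n q
    · simp only [Prod.smul_fst, Pi.smul_apply, sigma_smul, mon, RingHom.id_apply,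
        HahnSeries.coeff_single_mul, HahnSeries.coeff_smul, one_mul]
    · simp

/-- The filtration: `F m` consists of the `(v, c)` with `v n = 0` for `n < m`, and `c = 0` when
`1 ≤ m`. -/
def F (m : ℤ) : Submodule k (M k) where
  carrier := {u | (∀ n < m, u.1 n = 0) ∧ (1 ≤ m → u.2 = 0)}
  add_mem' := by
    rintro a b ⟨ha, ha'⟩ ⟨hb, hb'⟩
    refine ⟨fun n hn => ?_, fun h => ?_⟩
    · simp [ha n hn, hb n hn]
    · simp [ha' h, hb' h]
  zero_mem' := ⟨fun _ _ => rfl, fun _ => rfl⟩
  smul_mem' := by
    rintro c a ⟨ha, ha'⟩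
    refine ⟨fun n hn => ?_, fun h => ?_⟩
    · simp [ha n hn]
    · simp [ha' h]

theorem mem_F {m : ℤ} {u : M k} : u ∈ F k m ↔ (∀ n < m, u.1 n = 0) ∧ (1 ≤ m → u.2 = 0) :=
  Iff.rfl

theorem F_anti {m m' : ℤ} (h : m ≤ m') : F k m' ≤ F k m := by
  rintro u ⟨h1, h2⟩
  exact ⟨fun n hn => h1 n (by omega), fun h3 => h2 (by omega)⟩

theorem X_mem {m : ℤ} {u : M k} (hu : u ∈ F k m) : X k u ∈ F k (m - 1) := by
  obtain ⟨h1, h2⟩ := hu
  refine ⟨fun n hn => ?_, fun h => ?_⟩
  · change sigma k (u.1 (n + 1)) + (if n = 0 then HahnSeries.single 0 u.2 else 0) = 0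
    rw [h1 (n + 1) (by omega), map_zero, zero_add]
    split_ifs with h0
    · rw [h2 (by omega)]; simp
    · rfl
  · change (u.1 1).coeff (1 / 2) = 0
    rw [h1 1 (by omega)]; simp

theorem X_lead {m : ℤ} {u : M k} (hu : u ∈ F k m) : (X k u).1 (m - 1) = sigma k (u.1 m) := by
  obtain ⟨h1, h2⟩ := hu
  change sigma k (u.1 (m - 1 + 1)) + (if m - 1 = 0 then HahnSeries.single 0 u.2 else 0) = _
  rw [sub_add_cancel]
  split_ifs with h0
  · rw [h2 (by omega)]; simp
  · simp

theorem Y_mem {m : ℤ} {u : M k} (hu : u ∈ F k m) : Y k u ∈ F k (m - 1) := by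
  obtain ⟨h1, h2⟩ := hu
  refine ⟨fun n hn => ?_, fun h => rfl⟩
  change mon k 1 * sigma k (u.1 (n + 1)) = 0
  rw [h1 (n + 1) (by omega)]; simp

theorem Y_lead {m : ℤ} {u : M k} :
    (Y k u).1 (m - 1) = mon k 1 * sigma k (u.1 m) := by
  change mon k 1 * sigma k (u.1 (m - 1 + 1)) = _
  rw [sub_add_cancel]

/-- The representation of the free algebra. -/
noncomputable def rho : FreeAlgebra k (Fin 2) →ₐ[k] Module.End k (M k) :=
  FreeAlgebra.lift k ![X k, Y k]

/-- The basis element of the free algebra attached to a word. -/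
noncomputable def wd (w : FreeMonoid (Fin 2)) : FreeAlgebra k (Fin 2) :=
  FreeMonoid.lift (FreeAlgebra.ι k) w

/-- The integer whose binary digits are given by the word `w`. -/
def num (w : List (Fin 2)) : ℕ := Nat.ofDigits (2 : ℕ) (List.map Fin.val w)

theorem num_inj {w w' : List (Fin 2)} (hl : w.length = w'.length) (h : num w = num w') :
    w = w' := by
  have : List.map Fin.val w = List.map Fin.val w' := by
    apply Nat.ofDigits_inj_of_len_eq (b := 2) (by norm_num) (by simpa using hl)
    · intro d hd
      obtain ⟨i, _, rfl⟩ := List.mem_map.mp hd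
      exact i.isLt
    · intro d hd
      obtain ⟨i, _, rfl⟩ := List.mem_map.mp hd
      exact i.isLt
    · unfold num at h
      exact h
  exact List.map_injective_iff.mpr Fin.val_injective this

theorem word_action (w : List (Fin 2)) : ∀ (m : ℤ) (u : M k), u ∈ F k m →
    rho k (wd k (FreeMonoid.ofList w)) u ∈ F k (m - w.length) ∧
    (rho k (wd k (FreeMonoid.ofList w)) u).1 (m - w.length)
      = mon k (num w) * (sigma k)^[w.length] (u.1 m) := by
  induction w with
  | nil =>
    intro m u hu
    have : rho k (wd k (FreeMonoid.ofList [])) = 1 := by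
      simp [wd]
    rw [this]
    simp [num, mon, hu]
  | cons i w ih =>
    intro m u hu
    obtain ⟨h1, h2⟩ := ih m u hu
    have hdec : rho k (wd k (FreeMonoid.ofList (i :: w))) u
        = rho k (FreeAlgebra.ι k i) (rho k (wd k (FreeMonoid.ofList w)) u) := by
      rw [FreeMonoid.ofList_cons, wd, map_mul, map_mul]
      simp [wd]
    rw [hdec]
    have hlen : m - ((i :: w).length : ℤ) = m - (w.length : ℤ) - 1 := by
      simp; ring
    rw [hlen]
    have hnum : ((num (i :: w) : ℕ) : ℚ) = (i : ℕ) + 2 * (num w : ℚ) := by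
      simp [num, Nat.ofDigits_cons]
    have hiter : (sigma k)^[(i :: w).length] (u.1 m)
        = sigma k ((sigma k)^[w.length] (u.1 m)) := by
      rw [List.length_cons, Function.iterate_succ_apply']
    rw [hnum, hiter]
    have hs : sigma k (mon k (num w)) = mon k (2 * (num w : ℚ)) := sigma_single k _ _
    fin_cases i
    · have hX : rho k (FreeAlgebra.ι k (0 : Fin 2)) = X k := by simp [rho]
      change rho k (FreeAlgebra.ι k (0 : Fin 2)) _ ∈ _ ∧
        (rho k (FreeAlgebra.ι k (0 : Fin 2)) _).1 _ = _
      rw [hX]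
      refine ⟨X_mem k h1, ?_⟩
      rw [X_lead k h1, h2, map_mul, hs]
      simp
    · have hY : rho k (FreeAlgebra.ι k (1 : Fin 2)) = Y k := by simp [rho]
      change rho k (FreeAlgebra.ι k (1 : Fin 2)) _ ∈ _ ∧
        (rho k (FreeAlgebra.ι k (1 : Fin 2)) _).1 _ = _
      rw [hY]
      refine ⟨Y_mem k h1, ?_⟩
      rw [Y_lead k, h2, map_mul, hs, ← mul_assoc, mon_mul]
      simp

/-- The coordinates of an element of the free algebra in the basis of words. -/
noncomputable def co (a : FreeAlgebra k (Fin 2)) : FreeMonoid (Fin 2) →₀ k :=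
  (FreeAlgebra.basisFreeMonoid k (Fin 2)).repr a

theorem basis_eq (w : FreeMonoid (Fin 2)) :
    FreeAlgebra.basisFreeMonoid k (Fin 2) w = wd k w := by
  simp [FreeAlgebra.basisFreeMonoid, wd, FreeAlgebra.equivMonoidAlgebraFreeMonoid]

theorem expand (a : FreeAlgebra k (Fin 2)) :
    a = ∑ w ∈ (co k a).support, (co k a) w • wd k w := by
  conv_lhs => rw [← (FreeAlgebra.basisFreeMonoid k (Fin 2)).linearCombination_repr a]
  rw [Finsupp.linearCombination_apply, Finsupp.sum]
  simp only [basis_eq]
  rfl

/-- The degree of an element of the free algebra. -/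
noncomputable def deg (a : FreeAlgebra k (Fin 2)) : ℕ :=
  (co k a).support.sup FreeMonoid.length

/-- The leading coefficient of an element of the free algebra. -/
noncomputable def lc (a : FreeAlgebra k (Fin 2)) : K k :=
  ∑ w ∈ (co k a).support with w.length = deg k a, (co k a) w • mon k (num w.toList)

theorem lc_ne_zero {a : FreeAlgebra k (Fin 2)} (ha : a ≠ 0) : lc k a ≠ 0 := by
  have hco : (co k a).support.Nonempty := by
    rw [Finsupp.support_nonempty_iff]
    intro h
    apply ha
    exact (FreeAlgebra.basisFreeMonoid k (Fin 2)).repr.map_eq_zero_iff.mp h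
  obtain ⟨w₀, hw₀, hlen⟩ := Finset.exists_mem_eq_sup _ hco FreeMonoid.length
  intro h0
  have h1 : (lc k a).coeff (num w₀.toList) = (co k a) w₀ := by
    rw [lc, HahnSeries.coeff_sum]
    rw [Finset.sum_eq_single w₀]
    · simp [mon]
    · intro w hw hne
      rw [Finset.mem_filter] at hw
      rw [HahnSeries.coeff_smul, mon, HahnSeries.coeff_single_of_ne, smul_zero]
      intro h
      apply hne
      have h2 : num w₀.toList = num w.toList := by exact_mod_cast h
      have h3 : w.toList.length = w₀.toList.length := by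
        have : w.length = w₀.length := by rw [hw.2, deg, hlen]
        exact this
      have h4 := num_inj h3 h2.symm
      exact FreeMonoid.toList.injective h4
    · intro h
      exfalso
      apply h
      rw [Finset.mem_filter]
      exact ⟨hw₀, hlen.symm⟩
  rw [h0] at h1
  simp at h1
  exact (Finsupp.mem_support_iff.mp hw₀) h1.symm

theorem action (a : FreeAlgebra k (Fin 2)) (m : ℤ) (u : M k) (hu : u ∈ F k m) :
    rho k a u ∈ F k (m - deg k a) ∧
    (rho k a u).1 (m - deg k a) = lc k a * (sigma k)^[deg k a] (u.1 m) := by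
  have hlen : ∀ w ∈ (co k a).support, w.length ≤ deg k a := fun w hw =>
    Finset.le_sup (f := FreeMonoid.length) hw
  have hexp : rho k a u = ∑ w ∈ (co k a).support, (co k a) w • rho k (wd k w) u := by
    conv_lhs => rw [expand k a]
    simp
  have hw : ∀ w : FreeMonoid (Fin 2), rho k (wd k w) u ∈ F k (m - w.length) ∧
      (rho k (wd k w) u).1 (m - w.length)
        = mon k (num w.toList) * (sigma k)^[w.length] (u.1 m) := fun w =>
    word_action k w.toList m u hu
  refine ⟨?_, ?_⟩
  · rw [hexp]
    apply Submodule.sum_mem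
    intro w hws
    apply Submodule.smul_mem
    exact F_anti k (by have := hlen w hws; omega) (hw w).1
  · rw [hexp, lc, Finset.sum_filter, Finset.sum_mul]
    rw [Prod.fst_sum, Finset.sum_apply]
    apply Finset.sum_congr rfl
    intro w hws
    split_ifs with h
    · rw [← h, Prod.smul_fst, Pi.smul_apply, (hw w).2, smul_mon_mul]
    · have h1 := hlen w hws
      have h2 : w.length < deg k a := lt_of_le_of_ne h1 h
      rw [Prod.smul_fst, Pi.smul_apply, (hw w).1.1 _ (by omega)]
      simp

theorem sigma_iter_surjective (n : ℕ) : Function.Surjective (sigma k)^[n] :=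
  (sigma_surjective k).iterate n

theorem sigma_iter_zero (n : ℕ) : (sigma k)^[n] 0 = 0 :=
  Function.iterate_fixed (map_zero _) n

theorem sigma_iter_ne_zero (n : ℕ) {g : K k} (hg : g ≠ 0) : (sigma k)^[n] g ≠ 0 := by
  intro h
  apply hg
  have hinj : Function.Injective (sigma k)^[n] :=
    ((sigma k).injective).iterate n
  apply hinj
  rw [h, sigma_iter_zero]

/-- The extra basis vector. -/
noncomputable def ε : M k := (0, 1)

/-- One step of solving an equation `ρ a u = v`. -/
theorem solve_step {a : FreeAlgebra k (Fin 2)} (ha : a ≠ 0) (m : ℤ) (v : M k)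
    (hv : ∀ n < m - deg k a, v.1 n = 0) :
    ∃ u ∈ F k m, (∀ n < m - deg k a + 1, (rho k a u - v).1 n = 0) ∧
      (1 ≤ m - deg k a → (rho k a u).2 = 0) := by
  obtain ⟨g, hg⟩ := sigma_iter_surjective k (deg k a) ((lc k a)⁻¹ * v.1 (m - deg k a))
  have hu : ((fun n => if n = m then g else 0, 0) : M k) ∈ F k m := by
    refine ⟨fun n hn => ?_, fun _ => rfl⟩
    have : n ≠ m := by omega
    simp [this]
  refine ⟨_, hu, ?_, ?_⟩
  · obtain ⟨h1, h2⟩ := action k a m _ hu
    intro n hn
    rw [Prod.fst_sub, Pi.sub_apply]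
    by_cases hn' : n < m - deg k a
    · rw [h1.1 n hn', hv n hn', sub_zero]
    · have hn'' : n = m - deg k a := by omega
      subst hn''
      rw [h2]
      simp only [if_true]
      rw [hg, ← mul_assoc, mul_inv_cancel₀ (lc_ne_zero k ha), one_mul, sub_self]
  · exact (action k a m _ hu).1.2

theorem hyp1 (a : FreeAlgebra k (Fin 2)) : ε k ∉ (F k 1).map (rho k a) ⊔ F k 1 := by
  intro h
  obtain ⟨_, ⟨l, hl, rfl⟩, l', hl', hsum⟩ := Submodule.mem_sup.mp h
  by_cases ha : a = 0
  · subst ha
    rw [map_zero, LinearMap.zero_apply, zero_add] at hsum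
    rw [hsum] at hl'
    have := hl'.2 le_rfl
    simp [ε] at this
  have key : ∀ j : ℕ, j ≤ deg k a → l ∈ F k (1 + j) := by
    intro j
    induction j with
    | zero => intro _; simpa using hl
    | succ j ih =>
      intro hj
      have hlj := ih (by omega)
      obtain ⟨h1, h2⟩ := action k a _ _ hlj
      have h3 : (rho k a l).1 (1 + j - deg k a) = 0 := by
        have h4 : (rho k a l).1 (1 + j - deg k a) + l'.1 (1 + j - deg k a)
            = (ε k).1 (1 + j - deg k a) := by
          rw [← hsum]; rfl
        rw [hl'.1 _ (by omega), add_zero] at h4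
        rw [h4]; rfl
      rw [h3] at h2
      have h5 : l.1 (1 + j) = 0 := by
        by_contra hne
        exact mul_ne_zero (lc_ne_zero k ha) (sigma_iter_ne_zero k _ hne) h2.symm
      refine ⟨fun n hn => ?_, fun _ => hlj.2 (by omega)⟩
      by_cases hn' : n < 1 + j
      · exact hlj.1 n hn'
      · have : n = 1 + j := by push_cast at hn; omega
        rw [this]; exact h5
  have h1 := (action k a _ _ (key _ le_rfl)).1
  have h2 : (rho k a l).2 = 0 := h1.2 (by omega)
  have h3 : (rho k a l).2 + l'.2 = (ε k).2 := by rw [← hsum]; rfl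
  rw [h2, hl'.2 le_rfl] at h3
  simp [ε] at h3

theorem hyp2 (a : FreeAlgebra k (Fin 2)) :
    ∃ c : k, rho k a (ε k) - c • ε k ∈ (F k 1).map (rho k a) ⊔ F k 1 := by
  by_cases ha : a = 0
  · exact ⟨0, by subst ha; simp⟩
  have key : ∀ j : ℕ, j ≤ deg k a → ∃ l ∈ F k 1,
      ∀ n < 1 - (deg k a : ℤ) + j, (rho k a l - rho k a (ε k)).1 n = 0 := by
    intro j
    induction j with
    | zero =>
      intro _
      refine ⟨0, Submodule.zero_mem _, ?_⟩
      have hε : ε k ∈ F k 0 := ⟨fun _ _ => rfl, fun h => by omega⟩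
      obtain ⟨h1, h2⟩ := action k a _ _ hε
      intro n hn
      rw [map_zero, zero_sub, Prod.fst_neg, Pi.neg_apply, neg_eq_zero]
      by_cases hn' : n < 0 - (deg k a : ℤ)
      · exact h1.1 n hn'
      · have : n = 0 - (deg k a : ℤ) := by push_cast at hn; omega
        rw [this, h2]
        have h0 : (ε k).1 0 = 0 := rfl
        rw [h0, sigma_iter_zero, mul_zero]
    | succ j ih =>
      intro hj
      obtain ⟨l, hl, hl'⟩ := ih (by omega)
      obtain ⟨u, hu, hu', -⟩ := solve_step k ha (1 + j) (rho k a (ε k) - rho k a l)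
        (fun n hn => by
          have := hl' n (by omega)
          rw [← neg_sub, Prod.fst_neg, Pi.neg_apply, this, neg_zero])
      refine ⟨l + u, Submodule.add_mem _ hl (F_anti k (by omega) hu), ?_⟩
      intro n hn
      have := hu' n (by push_cast at hn; omega)
      have h3 : rho k a (l + u) - rho k a (ε k) = rho k a u - (rho k a (ε k) - rho k a l) := by
        rw [map_add]; abel
      rw [h3, this]
  obtain ⟨l, hl, hl'⟩ := key (deg k a) le_rfl
  refine ⟨(rho k a (ε k) - rho k a l).2, ?_⟩
  have hdec : rho k a (ε k) - (rho k a (ε k) - rho k a l).2 • ε k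
      = rho k a l + ((rho k a (ε k) - rho k a l) - (rho k a (ε k) - rho k a l).2 • ε k) := by
    abel
  rw [hdec]
  refine Submodule.add_mem _ (Submodule.mem_sup_left ⟨l, hl, rfl⟩) (Submodule.mem_sup_right ?_)
  refine ⟨fun n hn => ?_, fun _ => ?_⟩
  · have := hl' n (by omega)
    have h2 : (rho k a (ε k) - rho k a l).1 n = 0 := by
      rw [← neg_sub, Prod.fst_neg, Pi.neg_apply, this, neg_zero]
    rw [Prod.fst_sub, Pi.sub_apply, h2, zero_sub, neg_eq_zero]
    simp [ε]
  · simp [ε]

theorem hyp3 (a b : FreeAlgebra k (Fin 2)) (hb : b ≠ 0) :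
    (F k 1).map (rho k a) ≤ (F k 1).map (rho k (a * b)) ⊔ F k 1 := by
  have key : ∀ (j : ℕ) (v : M k), v ∈ F k 1 → ∃ l ∈ F k 1, rho k b l - v ∈ F k (1 + j) := by
    intro j
    induction j with
    | zero =>
      intro v hv
      refine ⟨0, Submodule.zero_mem _, ?_⟩
      simpa using hv
    | succ j ih =>
      intro v hv
      obtain ⟨l, hl, hl'⟩ := ih v hv
      obtain ⟨u, hu, hu', hu2⟩ := solve_step k hb (1 + j + deg k b) (v - rho k b l)
        (fun n hn => by
          have := hl'.1 n (by omega)
          rw [← neg_sub, Prod.fst_neg, Pi.neg_apply, this, neg_zero])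
      refine ⟨l + u, Submodule.add_mem _ hl (F_anti k (by omega) hu), ?_⟩
      refine ⟨fun n hn => ?_, fun _ => ?_⟩
      · have := hu' n (by push_cast at hn; omega)
        have h3 : rho k b (l + u) - v = rho k b u - (v - rho k b l) := by
          rw [map_add]; abel
        rw [h3, this]
      · have h1 := hu2 (by omega)
        have h2 := hl'.2 (by omega)
        rw [map_add]
        have h3 : (rho k b l + rho k b u - v).2 = (rho k b l - v).2 + (rho k b u).2 := by
          simp only [Prod.snd_sub, Prod.snd_add]; ring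
        rw [h3, h1, h2, add_zero]
  rintro _ ⟨v, hv, rfl⟩
  obtain ⟨l, hl, hl'⟩ := key (deg k a) v hv
  have h1 : rho k a v = rho k (a * b) l + -(rho k a (rho k b l - v)) := by
    rw [map_mul, Module.End.mul_apply, map_sub]; abel
  rw [h1]
  refine Submodule.add_mem _ (Submodule.mem_sup_left ⟨l, hl, rfl⟩)
    (Submodule.mem_sup_right (Submodule.neg_mem _ ?_))
  have h2 := (action k a _ _ hl').1
  exact F_anti k (by omega) h2

end Model

/-- The inverse of `1 + T` has coefficient `-1` at `T`. -/
theorem inv_coeff (k : Type*) [Field k] (h : K k) (hh : (1 + mon k 1) * h = 1) :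
    h.coeff 1 = -1 := by
  have hc : ∀ q : ℚ, h.coeff q + h.coeff (q - 1) = (1 : K k).coeff q := by
    intro q
    rw [← hh, add_mul, one_mul, HahnSeries.coeff_add, mon, HahnSeries.coeff_single_mul, one_mul]
  have ho : 0 ≤ h.order := by
    by_contra hlt
    push Not at hlt
    have h1 := hc h.order
    rw [HahnSeries.coeff_eq_zero_of_lt_order (by linarith : h.order - 1 < h.order), add_zero,
      HahnSeries.coeff_one, if_neg hlt.ne, HahnSeries.coeff_order_eq_zero] at h1
    rw [h1, mul_zero] at hh
    exact zero_ne_one hh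
  have hm1 : h.coeff (-1) = 0 := HahnSeries.coeff_eq_zero_of_lt_order (by linarith)
  have h0 := hc 0
  rw [zero_sub, hm1, add_zero, HahnSeries.coeff_one, if_pos rfl] at h0
  have h1 := hc 1
  rw [sub_self, h0, HahnSeries.coeff_one, if_neg one_ne_zero] at h1
  exact eq_neg_of_add_eq_zero_left h1

theorem X_delta (k : Type*) [Field k] (g : K k) :
    X k (fun n => if n = 1 then g else 0, 0)
      = (fun n => if n = 0 then sigma k g else 0, g.coeff (1 / 2)) := by
  refine Prod.ext ?_ ?_
  · funext n
    change sigma k (if n + 1 = 1 then g else 0) + (if n = 0 then HahnSeries.single 0 0 else 0)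
      = if n = 0 then sigma k g else 0
    by_cases h : n = 0
    · subst h; simp
    · have : n + 1 ≠ 1 := by omega
      simp [h]
  · rfl

theorem Y_delta (k : Type*) [Field k] (g : K k) :
    Y k (fun n => if n = 1 then g else 0, 0)
      = (fun n => if n = 0 then mon k 1 * sigma k g else 0, 0) := by
  refine Prod.ext ?_ ?_
  · funext n
    change mon k 1 * sigma k (if n + 1 = 1 then g else 0)
      = if n = 0 then mon k 1 * sigma k g else 0
    by_cases h : n = 0
    · subst h; simp
    · have : n + 1 ≠ 1 := by omega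
      simp [h]
  · rfl

theorem X_eps (k : Type*) [Field k] : X k (ε k) = (fun n => if n = 0 then 1 else 0, 0) := by
  refine Prod.ext ?_ ?_
  · funext n
    change sigma k 0 + (if n = 0 then HahnSeries.single 0 1 else 0) = _
    rw [map_zero, zero_add]
    rfl
  · rfl

theorem Y_eps (k : Type*) [Field k] : Y k (ε k) = 0 := by
  refine Prod.ext ?_ ?_
  · funext n
    change mon k 1 * sigma k 0 = 0
    rw [map_zero, mul_zero]
  · rfl

theorem delta_mem (k : Type*) [Field k] (g : K k) :
    ((fun n => if n = 1 then g else 0, 0) : M k) ∈ F k 1 := by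
  refine ⟨fun n hn => ?_, fun _ => rfl⟩
  have : n ≠ 1 := by omega
  simp [this]

/-- For every field `k` there is a brachymorphism `f : k⟨x, y⟩ → k` with `f x = f y = 0` and
`f (x + y) = 1`. -/
theorem result (k : Type*) [Field k] :
    ∃ f : FreeAlgebra k (Fin 2) → k, IsBrachymorphism f ∧
      f (FreeAlgebra.ι k 0) = 0 ∧ f (FreeAlgebra.ι k 1) = 0 ∧
      f (FreeAlgebra.ι k 0 + FreeAlgebra.ι k 1) = 1 := by
  obtain ⟨f, hf, hchar⟩ := abstract_construction (rho k) (F k 1) (ε k) (hyp1 k) (hyp2 k) (hyp3 k)
  have hX : rho k (FreeAlgebra.ι k (0 : Fin 2)) = X k := by simp [rho]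
  have hY : rho k (FreeAlgebra.ι k (1 : Fin 2)) = Y k := by simp [rho]
  refine ⟨f, hf, ?_, ?_, ?_⟩
  · apply hchar
    rw [hX]
    refine Submodule.mem_sup_left ⟨_, delta_mem k 1, ?_⟩
    rw [X_delta, X_eps, map_one, zero_smul, sub_zero]
    refine Prod.ext rfl ?_
    change (1 : K k).coeff (1 / 2) = 0
    rw [HahnSeries.coeff_one, if_neg (by norm_num)]
  · apply hchar
    rw [hY, Y_eps, zero_smul, sub_zero]
    exact Submodule.zero_mem _
  · apply hchar
    have hne : (1 + mon k 1 : K k) ≠ 0 := by
      intro h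
      have h1 : (1 + mon k 1 : K k).coeff 0 = 0 := by rw [h]; rfl
      rw [HahnSeries.coeff_add, mon, HahnSeries.coeff_one, if_pos rfl,
        HahnSeries.coeff_single_of_ne (by norm_num)] at h1
      simp at h1
    obtain ⟨g, hg⟩ := sigma_surjective k (1 + mon k 1)⁻¹
    have hg1 : (1 + mon k 1) * sigma k g = 1 := by rw [hg, mul_inv_cancel₀ hne]
    have hgc : g.coeff (1 / 2) = -1 := by
      rw [← sigma_coeff' k g 1]
      exact inv_coeff k _ hg1
    refine Submodule.mem_sup_left ⟨_, delta_mem k g, ?_⟩
    rw [map_add, hX, hY, LinearMap.add_apply, LinearMap.add_apply, X_delta, Y_delta, X_eps, Y_eps,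
      hgc]
    refine Prod.ext ?_ ?_
    · funext n
      change (if n = 0 then sigma k g else 0) + (if n = 0 then mon k 1 * sigma k g else 0)
        = ((if n = 0 then (1 : K k) else 0) + 0) - ((1 : k) • (0 : ℤ → K k)) n
      by_cases h : n = 0
      · rw [if_pos h, if_pos h, if_pos h, ← hg1]
        simp
        ring
      · simp [h]
    · change (-1 : k) + 0 = (0 + 0) - (1 : k) • (1 : k)
      simp

end Pool.Agent.Results.MP_0e398f_al.ExoticBrachymorphism
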